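import Pool.Agent.U259.WD.Main

/-!
# Dade's ordinary conjecture: divisibility by one integer decides

Blocks of `G` are given by their central characters `Z(F G) → F`, as functions `B : (G → F) → F`
(`Pool.Agent.Y63.NV.IsBlock`); `red` is a reduction map from the algebraic integers to an algebraically
closed field `F` of characteristic `p`. `S_d(B)` is the alternating sum of Q1 for `O_p(G) = 1`, over the
classes of chains of nontrivial `p`-subgroups of `G`.

* `centralValue red χ f`: the value of the reduced central character of `χ` at `f`. For `χ ∈ Irr(H)`,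
  `H ≤ G` the stabiliser of a chain, `bl(χ)^G = B` means `centralValue red χ (f|_H) = B f` for all class
  functions `f` of `G`.
* `numDzBlock p red B`: the number of the irreducible characters of defect zero in `B`; it is `0` if and
  only if the defect groups of `B` are nontrivial.
* `IsIdem e`: `e` is a class function on which all blocks take the values `0` and `1`, for instance the sum
  of some block idempotents.
* `Wr q G`: the wreath product `G ≀ C_q`; `wrF q e`: the element `e ⊗ ⋯ ⊗ e` of the centre of its group
  algebra, supported on the base group `G^q`.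

Proof. Let `Γ = G ≀ C_q`, `N = G^q`, `e' = e ⊗ ⋯ ⊗ e` and `F_e(x) = ∑_d S_d(G, e) x^d`. The chains of
`p`-subgroups of `N` are replaced by chains of subgroups `∏ P_i`; the number of characters of defect `d`
over `e'` of a stabiliser `M` is that for `M ∩ N`, up to the index, plus a term which vanishes unless `M`
contains a conjugate of `C_q` and can be computed at the stabilisers `G_σ ≀ C_q` of the diagonal chains
(Clifford theory; characters of `G_σ ≀ C_q` over invariant characters have the defect `q d`, plus `1` if
`q = p`). For `q ≠ p` these are all chains. For `q = p` the index formula of `Pool.Agent.N20.DI` adds the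
chains whose smallest member is a complement `R` of `N`; `N_Γ(R)/R ≅ G`, and `e'` becomes the Frobenius
twist of `e`; the sums `S_d` are invariant under it, because an automorphism of `ℂ` lifts the Frobenius
automorphism (`Pool.Agent.U259.WD.frob_aut`). This gives the recursions in (3). If `q^k`, `k ≥ 1`, divides
all `S_d(G, e)` and all `S_d(Γ, e')`, then by the recursion `q^(k+1)` divides all `S_d(G, e)`.
-/

set_option autoImplicit false

noncomputable section

namespace Pool.Agent.Results.MP_3f89b9_al.DivisibilityDecides

open Pool.Agent.Y63.NV (IsBlock IsClassFun centralValue numDzBlock)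
open Pool.Agent.Y63.AWC (IsIrreducibleCharacter)
open Pool.Agent.Y63.KR (alternatingSum chainSetoid chainStabilizer)
open Pool.Agent.N85.WM (Wr wrF IsIdem)

/-- `χ` has `p`-defect `d`: `p^d = |J|_p / χ(1)_p`. -/
def Defect (p d : ℕ) {J : Type} [Group J] (χ : J → ℂ) : Prop :=
  ∃ n : ℕ, χ 1 = n ∧ n.factorization p + d = (Nat.card J).factorization p

/-- `k^d(B_σ)` for `G_σ = H`: the number of the irreducible characters `χ` of the subgroup `H` of
`p`-defect `d` with `bl(χ)^G = B`. -/
def k (p : ℕ) {F : Type} [Field F] (red : integralClosure ℤ ℂ →+* F) (d : ℕ) {G : Type} [Group G]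
    (B : (G → F) → F) (H : Subgroup G) : ℕ :=
  Nat.card {χ : H → ℂ // IsIrreducibleCharacter χ ∧ Defect p d χ ∧
    ∀ f : G → F, IsClassFun f → centralValue red χ (fun x => f x) = B f}

/-- Dade's alternating sum `S_d(B) = ∑_σ (-1)^|σ| k^d(B_σ)` over representatives `σ` of the `G`-classes
of chains of nontrivial `p`-subgroups of `G`, the empty chain included. -/
def S (p : ℕ) {F : Type} [Field F] (red : integralClosure ℤ ℂ →+* F) (d : ℕ) {G : Type} [Group G]
    (B : (G → F) → F) : ℤ :=
  alternatingSum p G (fun H => (k p red d B H : ℤ))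

/-- The same sum without signs. -/
def T (p : ℕ) {F : Type} [Field F] (red : integralClosure ℤ ℂ →+* F) (d : ℕ) {G : Type} [Group G]
    (B : (G → F) → F) : ℕ :=
  ∑ᶠ c : Quotient (chainSetoid p G), k p red d B (chainStabilizer c.out.1)

/-- `G` has no nontrivial normal `p`-subgroup, and `B` is a block of `G` without characters of defect
zero, that is, with nontrivial defect groups. -/
structure Adm (p : ℕ) {F : Type} [Field F] (red : integralClosure ℤ ℂ →+* F) {G : Type} [Group G]
    (B : (G → F) → F) : Prop where
  op : ∀ P : Subgroup G, P.Normal → IsPGroup p P → P = ⊥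
  block : IsBlock B
  defect : numDzBlock p red B = 0

/-- The alternating sum `S_d(G, e)`: over the same chains, of the numbers of the irreducible characters
of `G_σ` of defect `d` whose reduced central character takes the value `1` at the restriction of `e`. -/
def Se (p : ℕ) {F : Type} [Field F] (red : integralClosure ℤ ℂ →+* F) (d : ℕ) (G : Type) [Group G]
    (e : G → F) : ℤ :=
  alternatingSum p G (fun H => (Nat.card {χ : H → ℂ // IsIrreducibleCharacter χ ∧ Defect p d χ ∧
    centralValue red χ (fun x => e x) = 1} : ℤ))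

/-- `F_e(x) = ∑_d S_d(G, e) x^d` -/
def Fe (p : ℕ) {F : Type} [Field F] (red : integralClosure ℤ ℂ →+* F) (G : Type) [Group G]
    (e : G → F) : PowerSeries ℤ := PowerSeries.mk fun d => Se p red d G e

/-- `f(x^q)` -/
def sub (q : ℕ) (f : PowerSeries ℤ) : PowerSeries ℤ :=
  PowerSeries.mk fun d => if q ∣ d then PowerSeries.coeff (d / q) f else 0

/-- The sum `S_d` for the `j`-th iterated wreath product `(⋯((G ≀ C_q) ≀ C_q)⋯) ≀ C_q` and its
element `(⋯(e ⊗ ⋯ ⊗ e)⋯)`. -/
def SeN (p q : ℕ) [NeZero q] {F : Type} [Field F] (red : integralClosure ℤ ℂ →+* F) (d : ℕ) :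
    ℕ → (G : Type) → [Group G] → (G → F) → ℤ
  | 0, G, _, e => Se p red d G e
  | j + 1, G, _, e => SeN p q red d j (Wr q G) (wrF q e)

/-- **Dade's ordinary conjecture: divisibility by one integer decides.** Let `p` be any prime.
(1) Let `m ≥ 2`. `S_d(B) = 0` for all `d`, all finite groups `G` with `O_p(G) = 1` and all blocks `B` of
`G` with nontrivial defect groups if and only if `m` divides all these `S_d(B)`; for `m = 2`: if and only
if all the sums `T_d(B)` without signs are even.
(2) Let `q` be any prime (`q = p` is allowed) and `X` a class of groups closed (for finite groups) under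
`G ↦ G ≀ C_q`. `S_d(B) = 0` for all `d` and all such `B` for the groups in `X` if and only if `q` divides
all these `S_d(B)`; for `q = 2`, if and only if all these `T_d(B)` are even.
(3) Let `q` be any prime, `G` a finite group and `e` a central element at which all blocks take the
values `0` and `1`. Then `e' = e ⊗ ⋯ ⊗ e` has the same property for `G ≀ C_q`, and
`q F_{e'}(x) = F_e(x)^q + (q² - 1) F_e(x^q)` for `q ≠ p`,
`p F_{e'}(x) = F_e(x)^p + (p² x - 1) F_e(x^p) - p² x F_e(x)` for `q = p`.
`q^a` divides all `S_d(G, e)` if and only if `q` divides all sums `S_d` of the first `a` iterated wreath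
products, and `S_d(G, e) = 0` for all `d` if and only if `q` divides the sums of all of them.
(4) This applies to each single block `B` of `G`: there is such an `e` with `S_d(G, e) = S_d(B)` for all
`d`, the idempotent of `B`. -/
theorem result (p : ℕ) [Fact p.Prime] (F : Type) [Field F] [IsAlgClosed F] [CharP F p]
    (red : integralClosure ℤ ℂ →+* F) :
    ((∀ m : ℕ, 2 ≤ m →
        ((∀ (G : Type) [Group G] [Finite G] (B : (G → F) → F), Adm p red B →
            ∀ d, S p red d B = 0) ↔
          ∀ (G : Type) [Group G] [Finite G] (B : (G → F) → F), Adm p red B →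
            ∀ d, (m : ℤ) ∣ S p red d B)) ∧
      ((∀ (G : Type) [Group G] [Finite G] (B : (G → F) → F), Adm p red B →
          ∀ d, S p red d B = 0) ↔
        ∀ (G : Type) [Group G] [Finite G] (B : (G → F) → F), Adm p red B →
          ∀ d, Even (T p red d B))) ∧
    (∀ (q : ℕ) [Fact q.Prime] (X : ∀ (G : Type) [Group G], Prop),
      (∀ (G : Type) [Group G] [Finite G], X G → X (Wr q G)) →
      ((∀ (G : Type) [Group G] [Finite G], X G → ∀ B : (G → F) → F, Adm p red B →
          ∀ d, S p red d B = 0) ↔
        ∀ (G : Type) [Group G] [Finite G], X G → ∀ B : (G → F) → F, Adm p red B →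
          ∀ d, (q : ℤ) ∣ S p red d B) ∧
      (q = 2 →
        ((∀ (G : Type) [Group G] [Finite G], X G → ∀ B : (G → F) → F, Adm p red B →
            ∀ d, S p red d B = 0) ↔
          ∀ (G : Type) [Group G] [Finite G], X G → ∀ B : (G → F) → F, Adm p red B →
            ∀ d, Even (T p red d B)))) ∧
    (∀ (q : ℕ) [Fact q.Prime] (G : Type) [Group G] [Finite G] (e : G → F), IsIdem e →
      IsIdem (wrF q e) ∧
      (q ≠ p → PowerSeries.C (q : ℤ) * Fe p red (Wr q G) (wrF q e) =
        Fe p red G e ^ q + PowerSeries.C ((q : ℤ) ^ 2 - 1) * sub q (Fe p red G e)) ∧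
      (q = p → PowerSeries.C (q : ℤ) * Fe p red (Wr q G) (wrF q e) =
        Fe p red G e ^ q +
          (PowerSeries.C ((q : ℤ) ^ 2) * PowerSeries.X - 1) * sub q (Fe p red G e) -
            PowerSeries.C ((q : ℤ) ^ 2) * PowerSeries.X * Fe p red G e) ∧
      (∀ a : ℕ, (∀ d, (q : ℤ) ^ a ∣ Se p red d G e) ↔
        ∀ j < a, ∀ d, (q : ℤ) ∣ SeN p q red d j G e) ∧
      ((∀ d, Se p red d G e = 0) ↔ ∀ j d : ℕ, (q : ℤ) ∣ SeN p q red d j G e)) ∧
    ∀ (G : Type) [Group G] [Finite G] (B : (G → F) → F), IsBlock B →
      ∃ e : G → F, IsIdem e ∧ B e = 1 ∧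
        (∀ B' : (G → F) → F, IsBlock B' → B' e = 1 → ∀ f : G → F, IsClassFun f → B' f = B f) ∧
        ∀ d, S p red d B = Se p red d G e := by
  have hX : ∀ (q : ℕ) [Fact q.Prime] (X : ∀ (G : Type) [Group G], Prop),
      (∀ (G : Type) [Group G] [Finite G], X G → X (Wr q G)) →
      ((∀ (G : Type) [Group G] [Finite G], X G → ∀ B : (G → F) → F, Adm p red B →
          ∀ d, S p red d B = 0) ↔
        ∀ (G : Type) [Group G] [Finite G], X G → ∀ B : (G → F) → F, Adm p red B →
          ∀ d, (q : ℤ) ∣ S p red d B) ∧
      (q = 2 →
        ((∀ (G : Type) [Group G] [Finite G], X G → ∀ B : (G → F) → F, Adm p red B →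
            ∀ d, S p red d B = 0) ↔
          ∀ (G : Type) [Group G] [Finite G], X G → ∀ B : (G → F) → F, Adm p red B →
            ∀ d, Even (T p red d B))) := by
    intro q _ X hX
    have h1 : ((∀ (G : Type) [Group G] [Finite G], X G → ∀ B : (G → F) → F, Adm p red B →
          ∀ d, S p red d B = 0) ↔
        ∀ (G : Type) [Group G] [Finite G], X G → ∀ B : (G → F) → F, Adm p red B →
          ∀ d, (q : ℤ) ∣ S p red d B) := by
      constructor
      · intro h G _ _ hG B hB d
        rw [h G hG B hB d]
        exact dvd_zero _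
      · intro h G _ _ hG B hB d
        exact Pool.Agent.U259.WD.class_main red q X hX
          (fun G _ _ hG ho B hB hz => h G hG B ⟨ho, hB, hz⟩) G hG B hB.block hB.defect d
    refine ⟨h1, fun hp2 => ?_⟩
    rw [h1]
    subst hp2
    constructor
    · intro h G _ _ hG B hB d
      exact (Pool.Agent.U259.WD.parity red d B).1 (h G hG B hB d)
    · intro h G _ _ hG B hB d
      exact (Pool.Agent.U259.WD.parity red d B).2 (h G hG B hB d)
  have hSe : ∀ (q : ℕ) [Fact q.Prime] (d j : ℕ) (G : Type) [Group G] (e : G → F),
      SeN p q red d j G e = Pool.Agent.U259.WD.SdN p q red d j G e := by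
    intro q _ d j
    induction j with
    | zero => intro G _ e; rfl
    | succ j ih => intro G _ e; exact ih (Wr q G) (wrF q e)
  refine ⟨⟨fun m hm => ?_, ?_⟩, fun q _ X h => hX q X h, fun q _ G _ _ e he =>
    ⟨Pool.Agent.U259.WD.idem_wr red he, fun hq => ?_, fun hq => ?_, fun a => ?_, ?_⟩,
    fun G _ _ B hB => ?_⟩
  · have hq := Nat.minFac_prime (show m ≠ 1 by omega)
    have : Fact m.minFac.Prime := ⟨hq⟩
    obtain ⟨h1, -⟩ := hX m.minFac (fun _ _ => True) (fun _ _ _ _ => trivial)
    constructor
    · intro h G _ _ B hB d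
      rw [h G B hB d]
      exact dvd_zero _
    · intro h G _ _ B hB
      refine h1.2 (fun G _ _ _ B hB d => ?_) G trivial B hB
      exact (show (m.minFac : ℤ) ∣ (m : ℤ) by exact_mod_cast m.minFac_dvd).trans (h G B hB d)
  · have : Fact (Nat.Prime 2) := ⟨Nat.prime_two⟩
    obtain ⟨-, h2⟩ := hX 2 (fun _ _ => True) (fun _ _ _ _ => trivial)
    constructor
    · intro h G _ _ B hB
      exact (h2 rfl).1 (fun G _ _ _ B hB => h G B hB) G trivial B hB
    · intro h G _ _ B hB
      exact (h2 rfl).2 (fun G _ _ _ B hB => h G B hB) G trivial B hB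
  · have h := Pool.Agent.U259.WD.series (p := p) (q := q) red he
    unfold Pool.Agent.U259.WD.rhs at h
    rw [if_neg hq] at h
    exact h
  · have h := Pool.Agent.U259.WD.series (p := p) (q := q) red he
    unfold Pool.Agent.U259.WD.rhs at h
    rw [if_pos hq] at h
    subst hq
    exact h.trans (add_sub_assoc _ _ _).symm
  · simp only [hSe]
    exact Pool.Agent.U259.WD.tower red q a G e he
  · simp only [hSe]
    exact Pool.Agent.U259.WD.tower_zero red q G e he
  · obtain ⟨e, he⟩ := Pool.Agent.U259.WP.exists_sep hB
    exact ⟨e, he.1, he.2.1, fun B' hB' h f hf => (he.2.2 B' hB' h f hf).symm,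
      fun d => Pool.Agent.U259.WD.sbd_sep red he d⟩

end Pool.Agent.Results.MP_3f89b9_al.DivisibilityDecides
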