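import Pool.Agent.U259.UB.Bnd

/-!
# Dade's ordinary conjecture: one-sided bounds decide, for all primes

Blocks of `G` are given by their central characters `Z(F G) → F`, as functions `B : (G → F) → F`
(`Pool.Agent.Y63.NV.IsBlock`); `red` is a reduction map from the algebraic integers to an algebraically
closed field `F` of characteristic `p`. `S_d(B)` is the alternating sum of Q1 for `O_p(G) = 1`, over the
classes of chains of nontrivial `p`-subgroups of `G`.

* `centralValue red χ f`: the value of the reduced central character of `χ` at `f`. For `χ ∈ Irr(H)`,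
  `H ≤ G` the stabiliser of a chain, `bl(χ)^G = B` means `centralValue red χ (f|_H) = B f` for all class
  functions `f` of `G`.
* `numDzBlock p red B`: the number of the irreducible characters of defect zero in `B`; it is `0` if and
  only if the defect groups of `B` are nontrivial.
* `IsIdem e`: `e` is a class function on which all blocks take the values `0` and `1`.
* `Wr p G`: the wreath product `G ≀ C_p`; `wrF p e`: the element `e ⊗ ⋯ ⊗ e` of the centre of its group
  algebra, supported on the base group `G^p`.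

Proof. Let `Γ = G ≀ C_p` and `N = G^p`. Exactly one block `B'` of `Γ` lies over `B ⊗ ⋯ ⊗ B`
(`Pool.Agent.U259.UB.uniq`): all the characters of `Γ` over `B ⊗ ⋯ ⊗ B` have the same reduced central
character on the class functions supported on `N`. If `B` has two characters, then one of them, `χ'`, is
induced from `N`; if `z` is a class function supported on a coset `≠ N`, then `z ^ p` is supported on `N`,
hence `χ(z) ^ p = χ(z ^ p) = χ'(z ^ p) = χ'(z) ^ p = 0`. If `B` has one character, then the characters over it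
differ by characters of `p`-power order. So the recursion for the generating functions
`p F_{B'}(x) = F_B(x)^p + (p² x - 1) F_B(x^p) - p² x F_B(x)` (`Pool.Agent.U259.WD.series`) holds for single
blocks. If `s x^d`, `d ≥ 2`, is the lowest term of `F_B`, then `-p s x^(d+1)` is that of `F_{B'}`. One step
gives `d ≥ 2` and preserves `F_B ≠ 0` (look at the highest terms). Iteration gives both signs and the
growth of order `log |G|`. For the direct product of two blocks the generating functions are multiplied.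
-/

set_option autoImplicit false

noncomputable section

namespace Pool.Agent.Results.MP_3f89b9_al.OneSidedBounds

open Pool.Agent.Y63.NV (IsBlock IsClassFun centralValue numDzBlock)
open Pool.Agent.Y63.AWC (IsIrreducibleCharacter)
open Pool.Agent.Y63.KR (alternatingSum)
open Pool.Agent.N85.WM (Wr wrF IsIdem)

/-- `χ` has `p`-defect `d`: `p^d = |J|_p / χ(1)_p`. -/
def Defect (p d : ℕ) {J : Type} [Group J] (χ : J → ℂ) : Prop :=
  ∃ n : ℕ, χ 1 = n ∧ n.factorization p + d = (Nat.card J).factorization p

/-- `k^d(B_σ)` for `G_σ = H`: the number of the irreducible characters `χ` of the subgroup `H` of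
`p`-defect `d` with `bl(χ)^G = B`. -/
def k (p : ℕ) {F : Type} [Field F] (red : integralClosure ℤ ℂ →+* F) (d : ℕ) {G : Type} [Group G]
    (B : (G → F) → F) (H : Subgroup G) : ℕ :=
  Nat.card {χ : H → ℂ // IsIrreducibleCharacter χ ∧ Defect p d χ ∧
    ∀ f : G → F, IsClassFun f → centralValue red χ (fun x => f x) = B f}

/-- Dade's alternating sum `S_d(B) = ∑_σ (-1)^|σ| k^d(B_σ)` over representatives `σ` of the `G`-classes
of chains of nontrivial `p`-subgroups of `G`, the empty chain included. -/
def S (p : ℕ) {F : Type} [Field F] (red : integralClosure ℤ ℂ →+* F) (d : ℕ) {G : Type} [Group G]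
    (B : (G → F) → F) : ℤ :=
  alternatingSum p G (fun H => (k p red d B H : ℤ))

/-- `G` has no nontrivial normal `p`-subgroup, and `B` is a block of `G` without characters of defect
zero, that is, with nontrivial defect groups. -/
structure Adm (p : ℕ) {F : Type} [Field F] (red : integralClosure ℤ ℂ →+* F) {G : Type} [Group G]
    (B : (G → F) → F) : Prop where
  op : ∀ P : Subgroup G, P.Normal → IsPGroup p P → P = ⊥
  block : IsBlock B
  defect : numDzBlock p red B = 0

/-- The generating function `F_B(x) = ∑_d S_d(B) x^d`. -/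
def Fb (p : ℕ) {F : Type} [Field F] (red : integralClosure ℤ ℂ →+* F) {G : Type} [Group G]
    (B : (G → F) → F) : PowerSeries ℤ := PowerSeries.mk fun d => S p red d B

/-- `f(x^q)` -/
def sub (q : ℕ) (f : PowerSeries ℤ) : PowerSeries ℤ :=
  PowerSeries.mk fun d => if q ∣ d then PowerSeries.coeff (d / q) f else 0

/-- **Dade's ordinary conjecture: one-sided bounds decide, for all primes.** Let `p` be any prime.
(1) Let `X` be a class of groups closed (for finite groups) under `G ↦ G ≀ C_p`, and consider all `S_d(B)`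
for `G` in `X` with `O_p(G) = 1` and blocks `B` of `G` with nontrivial defect groups. They are all zero, if
and only if they satisfy `S_d(B) ≤ o(log |G|)` (for every `ε > 0` there is `c` with
`S_d(B) ≤ c + ε log |G|`), if and only if they satisfy `S_d(B) ≥ -o(log |G|)`; in particular, if and only if
they are bounded above, or below, by a constant.
(2) If `X` is also closed under direct products, then they are all zero if and only if for every `ε > 0`
there is `c` with `S_d(B) ≤ c |G|^ε`, and if and only if for every `ε > 0` there is `c` with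
`S_d(B) ≥ -c |G|^ε`.
(3) Let `B` be any block of a finite group `G` and `e` an idempotent of `B` (all blocks take the values `0`
and `1` at `e`, and `B` is the only one with the value `1`). There is exactly one block `B'` of `G ≀ C_p`
with the value `1` at `e ⊗ ⋯ ⊗ e`, and
`p F_{B'}(x) = F_B(x)^p + (p² x - 1) F_B(x^p) - p² x F_B(x)`, `F_B(x) = ∑_d S_d(B) x^d`. If `d ≥ 2` and
`S_i(B) = 0` for all `i < d`, then `S_i(B') = 0` for all `i ≤ d`, and `S_{d+1}(B') = -p S_d(B)`. -/
theorem result (p : ℕ) [Fact p.Prime] (F : Type) [Field F] [IsAlgClosed F] [CharP F p]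
    (red : integralClosure ℤ ℂ →+* F) :
    (∀ X : (∀ (G : Type) [Group G], Prop),
      (∀ (G : Type) [Group G] [Finite G], X G → X (Wr p G)) →
      (((∀ (G : Type) [Group G] [Finite G], X G → ∀ B : (G → F) → F, Adm p red B →
            ∀ d, S p red d B = 0) ↔
          ∀ ε : ℝ, 0 < ε → ∃ c : ℝ, ∀ (G : Type) [Group G] [Finite G], X G →
            ∀ B : (G → F) → F, Adm p red B → ∀ d,
              (S p red d B : ℝ) ≤ c + ε * Real.log (Nat.card G)) ∧
        ((∀ (G : Type) [Group G] [Finite G], X G → ∀ B : (G → F) → F, Adm p red B →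
            ∀ d, S p red d B = 0) ↔
          ∀ ε : ℝ, 0 < ε → ∃ c : ℝ, ∀ (G : Type) [Group G] [Finite G], X G →
            ∀ B : (G → F) → F, Adm p red B → ∀ d,
              -(c + ε * Real.log (Nat.card G)) ≤ (S p red d B : ℝ))) ∧
      ((∀ (G H : Type) [Group G] [Group H] [Finite G] [Finite H], X G → X H → X (G × H)) →
        (((∀ (G : Type) [Group G] [Finite G], X G → ∀ B : (G → F) → F, Adm p red B →
              ∀ d, S p red d B = 0) ↔
            ∀ ε : ℝ, 0 < ε → ∃ c : ℝ, ∀ (G : Type) [Group G] [Finite G], X G →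
              ∀ B : (G → F) → F, Adm p red B → ∀ d,
                (S p red d B : ℝ) ≤ c * (Nat.card G : ℝ) ^ ε) ∧
          ((∀ (G : Type) [Group G] [Finite G], X G → ∀ B : (G → F) → F, Adm p red B →
              ∀ d, S p red d B = 0) ↔
            ∀ ε : ℝ, 0 < ε → ∃ c : ℝ, ∀ (G : Type) [Group G] [Finite G], X G →
              ∀ B : (G → F) → F, Adm p red B → ∀ d,
                -(c * (Nat.card G : ℝ) ^ ε) ≤ (S p red d B : ℝ))))) ∧
    ∀ (G : Type) [Group G] [Finite G] (B : (G → F) → F) (e : G → F), IsBlock B → IsIdem e →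
      B e = 1 →
      (∀ B₁ : (G → F) → F, IsBlock B₁ → B₁ e = 1 → ∀ f : G → F, IsClassFun f → B₁ f = B f) →
      (∃ B' : (Wr p G → F) → F, IsBlock B' ∧ B' (wrF p e) = 1) ∧
      ∀ B' : (Wr p G → F) → F, IsBlock B' → B' (wrF p e) = 1 →
        (∀ B₁ : (Wr p G → F) → F, IsBlock B₁ → B₁ (wrF p e) = 1 →
          ∀ f : Wr p G → F, IsClassFun f → B₁ f = B' f) ∧
        PowerSeries.C (p : ℤ) * Fb p red B' = Fb p red B ^ p +
          (PowerSeries.C ((p : ℤ) ^ 2) * PowerSeries.X - 1) * sub p (Fb p red B) -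
            PowerSeries.C ((p : ℤ) ^ 2) * PowerSeries.X * Fb p red B ∧
        ∀ d, 2 ≤ d → (∀ i < d, S p red i B = 0) →
          (∀ i ≤ d, S p red i B' = 0) ∧ S p red (d + 1) B' = -(p : ℤ) * S p red d B := by
  have hS : ∀ {G : Type} [Group G] (B : (G → F) → F) (d : ℕ),
      S p red d B = Pool.Agent.U259.WD.SBd p red d B := fun _ _ => rfl
  -- the classes
  have hlow : ∀ (X : ∀ (G : Type) [Group G], Prop),
      (∀ (G : Type) [Group G] [Finite G], X G → X (Wr p G)) →
      (¬ ∀ (G : Type) [Group G] [Finite G], X G → ∀ B : (G → F) → F, Adm p red B →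
        ∀ d, S p red d B = 0) → ∃ (N : ℕ) (s : ℤ), s ≠ 0 ∧ Pool.Agent.U259.UB.Low p red X N s := by
    intro X hw h
    push Not at h
    obtain ⟨G, _, _, hG, B, hB, d, hd⟩ := h
    exact Pool.Agent.U259.UB.low_init red hw hG hB.block hB.defect hd
  have hout : ∀ (X : ∀ (G : Type) [Group G], Prop) (N : ℕ) (s : ℤ), s ≠ 0 →
      Pool.Agent.U259.UB.Low p red X N s → ∃ (G : Type) (_ : Group G) (_ : Finite G),
        X G ∧ Nat.card G = N ∧ ∃ B : (G → F) → F, Adm p red B ∧ ∃ d, S p red d B = s := by
    intro X N s hs h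
    obtain ⟨G, _, _, h1, h2, h3, B, h4, h5, d, h6⟩ := Pool.Agent.U259.UB.low_out red hs h
    exact ⟨G, inferInstance, inferInstance, h1, h2, B, ⟨h3, h4, h5⟩, d, h6⟩
  refine ⟨fun X hw => ⟨⟨⟨fun h ε _ => ⟨0, fun G _ _ hG B hB d => ?_⟩, fun h => ?_⟩,
    ⟨fun h ε _ => ⟨0, fun G _ _ hG B hB d => ?_⟩, fun h => ?_⟩⟩, fun hm =>
    ⟨⟨fun h ε _ => ⟨0, fun G _ _ hG B hB d => ?_⟩, fun h => ?_⟩,
      ⟨fun h ε _ => ⟨0, fun G _ _ hG B hB d => ?_⟩, fun h => ?_⟩⟩⟩, ?_⟩
  · rw [h G hG B hB d]
    have h1 : (1 : ℝ) ≤ Nat.card G := by exact_mod_cast Nat.card_pos (α := G)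
    have h2 := Real.log_nonneg h1
    push_cast
    positivity
  · by_contra hne
    obtain ⟨N, s, hs, h1⟩ := hlow X hw hne
    refine Pool.Agent.U259.UB.no_log red hw h1 hs (σ := 1) (Or.inl rfl) fun ε hε => ?_
    obtain ⟨c, hc⟩ := h ε hε
    refine ⟨c, fun N' s' h2 h3 => ?_⟩
    obtain ⟨G, _, _, h4, rfl, B, h5, d, rfl⟩ := hout X N' s' h3 h2
    rw [one_mul]
    exact hc G h4 B h5 d
  · rw [h G hG B hB d]
    have h1 : (1 : ℝ) ≤ Nat.card G := by exact_mod_cast Nat.card_pos (α := G)
    have h2 := Real.log_nonneg h1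
    have h3 : 0 ≤ ε * Real.log (Nat.card G) := by positivity
    push_cast
    linarith
  · by_contra hne
    obtain ⟨N, s, hs, h1⟩ := hlow X hw hne
    refine Pool.Agent.U259.UB.no_log red hw h1 hs (σ := -1) (Or.inr rfl) fun ε hε => ?_
    obtain ⟨c, hc⟩ := h ε hε
    refine ⟨c, fun N' s' h2 h3 => ?_⟩
    obtain ⟨G, _, _, h4, rfl, B, h5, d, rfl⟩ := hout X N' s' h3 h2
    have h6 := hc G h4 B h5 d
    push_cast
    linarith
  · rw [h G hG B hB d]
    push_cast
    rw [zero_mul]
  · by_contra hne
    obtain ⟨N, s, hs, h1⟩ := hlow X hw hne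
    refine Pool.Agent.U259.UB.no_pow red hw hm h1 hs (σ := 1) (Or.inl rfl) fun ε hε => ?_
    obtain ⟨c, hc⟩ := h ε hε
    refine ⟨c, fun N' s' h2 h3 => ?_⟩
    obtain ⟨G, _, _, h4, rfl, B, h5, d, rfl⟩ := hout X N' s' h3 h2
    rw [one_mul]
    exact hc G h4 B h5 d
  · rw [h G hG B hB d]
    push_cast
    rw [zero_mul, neg_zero]
  · by_contra hne
    obtain ⟨N, s, hs, h1⟩ := hlow X hw hne
    refine Pool.Agent.U259.UB.no_pow red hw hm h1 hs (σ := -1) (Or.inr rfl) fun ε hε => ?_
    obtain ⟨c, hc⟩ := h ε hε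
    refine ⟨c, fun N' s' h2 h3 => ?_⟩
    obtain ⟨G, _, _, h4, rfl, B, h5, d, rfl⟩ := hout X N' s' h3 h2
    have h6 := hc G h4 B h5 d
    push_cast
    linarith
  · intro G _ _ B e hB he h1 h2
    have hs : Pool.Agent.U259.WP.Sep B e := ⟨he, h1, fun B₁ h3 h4 f hf => (h2 B₁ h3 h4 f hf).symm⟩
    obtain ⟨B₀, hB₀, hs₀⟩ := Pool.Agent.U259.UB.exists_sep_wr (p := p) (q := p) red hs hB
      (Or.inl rfl)
    refine ⟨⟨B₀, hB₀, hs₀.2.1⟩, fun B' hB' h3 => ?_⟩
    have hs' : Pool.Agent.U259.WP.Sep B' (wrF p e) := ⟨hs₀.1, h3, fun B₁ h4 h5 f hf => by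
      rw [← hs₀.2.2 B' hB' h3 f hf, ← hs₀.2.2 B₁ h4 h5 f hf]⟩
    have hF : ∀ {G : Type} [Group G] [Finite G] {B : (G → F) → F} {e : G → F},
        Pool.Agent.U259.WP.Sep B e → Fb p red B = Pool.Agent.U259.WD.gf p red G e := by
      intro G _ _ B e hs
      unfold Fb Pool.Agent.U259.WD.gf
      congr 1
      funext d
      rw [hS, Pool.Agent.U259.WD.sbd_sep red hs]
    have hser := Pool.Agent.U259.WD.series (p := p) (q := p) red he
    rw [← hF hs', ← hF hs] at hser
    refine ⟨fun B₁ h4 h5 f hf => (hs'.2.2 B₁ h4 h5 f hf).symm, ?_, fun d hd h4 => ?_⟩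
    · have h5 := hser
      unfold Pool.Agent.U259.WD.rhs at h5
      rw [if_pos rfl] at h5
      exact h5.trans (add_sub_assoc _ _ _).symm
    · have h5 : Pool.Agent.U259.UB.Fst (Fb p red B) d (S p red d B) := by
        refine ⟨fun i hi => ?_, ?_⟩
        · unfold Fb
          rw [PowerSeries.coeff_mk]
          exact h4 i hi
        · unfold Fb
          rw [PowerSeries.coeff_mk]
      have h6 := Pool.Agent.U259.UB.fst_step (Fact.out : p.Prime) hd hser h5
      have h7 : ∀ i, PowerSeries.coeff i (Fb p red B') = S p red i B' := fun i => by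
        unfold Fb
        rw [PowerSeries.coeff_mk]
      exact ⟨fun i hi => by rw [← h7, h6.1 i (by omega)], by rw [← h7, h6.2]⟩

end Pool.Agent.Results.MP_3f89b9_al.OneSidedBounds
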