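import Pool.Agent.U259.UB.Sm2

/-!
# Dade's ordinary conjecture: the characters of very small defect decide

Blocks of `G` are given by their central characters `Z(F G) → F`, as functions `B : (G → F) → F`
(`Pool.Agent.Y63.NV.IsBlock`); `red` is a reduction map from the algebraic integers to an algebraically
closed field `F` of characteristic `p`. `S_d(B)` is the alternating sum of Q1 for `O_p(G) = 1`, over the
classes of chains of nontrivial `p`-subgroups of `G`.

* `centralValue red χ f`: the value of the reduced central character of `χ` at `f`. For `χ ∈ Irr(H)`,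
  `H ≤ G` the stabiliser of a chain, `bl(χ)^G = B` means `centralValue red χ (f|_H) = B f` for all class
  functions `f` of `G`.
* `numDzBlock p red B`: the number of the irreducible characters of defect zero in `B`; it is `0` if and
  only if the defect groups of `B` are nontrivial.
* `Wr p G`: the wreath product `G ≀ C_p`.
* `defect p red B`: the defect `d(B)` of the block `B`, the largest defect of the characters in `B`; the
  defect groups of `B` have order `p ^ d(B)`. A character of defect `d` in `B` has height `d(B) - d`.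

Proof. Let `B'` be the unique block of `G ≀ C_p` over `B ⊗ ⋯ ⊗ B` (`Pool.Agent.U259.UB.uniq`). If `s x^d`,
`d ≥ 2`, is the lowest term of `F_B(x) = ∑_d S_d(B) x^d`, then `-p s x^(d+1)` is that of `F_{B'}`: the
smallest `d` with `S_d(B) ≠ 0` grows by `1` only. But `d(B') ≥ p d(B) + 1`, since a character `θ` of defect
`d(B)` in `B` has an extension `θ ⊗ ⋯ ⊗ θ` to `G ≀ C_p`. After `j` steps there are a block of defect at
least `p^j` and a nonzero sum `S_{c+j}` of it, where `c` is constant.
-/

set_option autoImplicit false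

noncomputable section

namespace Pool.Agent.Results.MP_3f89b9_al.SmallDefectsDecide

open Pool.Agent.Y63.NV (IsBlock IsClassFun centralValue numDzBlock)
open Pool.Agent.Y63.AWC (IsIrreducibleCharacter)
open Pool.Agent.Y63.KR (alternatingSum)
open Pool.Agent.N85.WM (Wr)

/-- `χ` has `p`-defect `d`: `p^d = |J|_p / χ(1)_p`. -/
def Defect (p d : ℕ) {J : Type} [Group J] (χ : J → ℂ) : Prop :=
  ∃ n : ℕ, χ 1 = n ∧ n.factorization p + d = (Nat.card J).factorization p

/-- `k^d(B_σ)` for `G_σ = H`: the number of the irreducible characters `χ` of the subgroup `H` of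
`p`-defect `d` with `bl(χ)^G = B`. -/
def k (p : ℕ) {F : Type} [Field F] (red : integralClosure ℤ ℂ →+* F) (d : ℕ) {G : Type} [Group G]
    (B : (G → F) → F) (H : Subgroup G) : ℕ :=
  Nat.card {χ : H → ℂ // IsIrreducibleCharacter χ ∧ Defect p d χ ∧
    ∀ f : G → F, IsClassFun f → centralValue red χ (fun x => f x) = B f}

/-- Dade's alternating sum `S_d(B) = ∑_σ (-1)^|σ| k^d(B_σ)` over representatives `σ` of the `G`-classes
of chains of nontrivial `p`-subgroups of `G`, the empty chain included. -/
def S (p : ℕ) {F : Type} [Field F] (red : integralClosure ℤ ℂ →+* F) (d : ℕ) {G : Type} [Group G]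
    (B : (G → F) → F) : ℤ :=
  alternatingSum p G (fun H => (k p red d B H : ℤ))

/-- `G` has no nontrivial normal `p`-subgroup, and `B` is a block of `G` without characters of defect
zero, that is, with nontrivial defect groups. -/
structure Adm (p : ℕ) {F : Type} [Field F] (red : integralClosure ℤ ℂ →+* F) {G : Type} [Group G]
    (B : (G → F) → F) : Prop where
  op : ∀ P : Subgroup G, P.Normal → IsPGroup p P → P = ⊥
  block : IsBlock B
  defect : numDzBlock p red B = 0

/-- The defect `d(B)` of the block `B`: the largest `p`-defect of the irreducible characters in `B`. -/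
def defect (p : ℕ) {F : Type} [Field F] (red : integralClosure ℤ ℂ →+* F) {G : Type} [Group G]
    (B : (G → F) → F) : ℕ :=
  sSup {d : ℕ | ∃ χ : G → ℂ, IsIrreducibleCharacter χ ∧ Defect p d χ ∧
    ∀ f : G → F, IsClassFun f → centralValue red χ f = B f}

/-- **Dade's ordinary conjecture: the characters of very small defect decide.** Let `p` be any prime and
`X` a class of groups closed (for finite groups) under `G ↦ G ≀ C_p`. Consider all `S_d(B)` for `G` in `X`
with `O_p(G) = 1` and blocks `B` of `G` with nontrivial defect groups.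
(1) They are all zero if and only if for every `c` there is `m` such that `S_d(B) = 0` for all `B` of
defect `d(B) ≥ m` and all `d` with `p^d ≤ c d(B)`.
(2) Otherwise there are `c ≥ 2`, `N` and `s ≠ 0` such that for every `j` there are such `G` and `B` with
`|G| ≤ N^(p^j)`, `d(B) ≥ p^j`, `S_i(B) = 0` for `i < c + j`, and `S_{c+j}(B) = (-p)^j s`. -/
theorem result (p : ℕ) [Fact p.Prime] (F : Type) [Field F] [IsAlgClosed F] [CharP F p]
    (red : integralClosure ℤ ℂ →+* F) (X : (∀ (G : Type) [Group G], Prop))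
    (hX : ∀ (G : Type) [Group G] [Finite G], X G → X (Wr p G)) :
    ((∀ (G : Type) [Group G] [Finite G], X G → ∀ B : (G → F) → F, Adm p red B →
        ∀ d, S p red d B = 0) ↔
      ∀ c : ℕ, ∃ m : ℕ, ∀ (G : Type) [Group G] [Finite G], X G → ∀ B : (G → F) → F,
        Adm p red B → m ≤ defect p red B → ∀ d, p ^ d ≤ c * defect p red B →
          S p red d B = 0) ∧
    ((¬ ∀ (G : Type) [Group G] [Finite G], X G → ∀ B : (G → F) → F, Adm p red B →
        ∀ d, S p red d B = 0) →
      ∃ (c N : ℕ) (s : ℤ), 2 ≤ c ∧ s ≠ 0 ∧ ∀ j : ℕ,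
        ∃ (G : Type) (_ : Group G) (_ : Finite G), X G ∧ Nat.card G ≤ N ^ p ^ j ∧
          ∃ B : (G → F) → F, Adm p red B ∧ p ^ j ≤ defect p red B ∧
            (∀ i < c + j, S p red i B = 0) ∧ S p red (c + j) B = (-(p : ℤ)) ^ j * s) := by
  have h2 : (¬ ∀ (G : Type) [Group G] [Finite G], X G → ∀ B : (G → F) → F, Adm p red B →
        ∀ d, S p red d B = 0) →
      ∃ (c N : ℕ) (s : ℤ), 2 ≤ c ∧ s ≠ 0 ∧ ∀ j : ℕ,
        ∃ (G : Type) (_ : Group G) (_ : Finite G), X G ∧ Nat.card G ≤ N ^ p ^ j ∧
          ∃ B : (G → F) → F, Adm p red B ∧ p ^ j ≤ defect p red B ∧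
            (∀ i < c + j, S p red i B = 0) ∧ S p red (c + j) B = (-(p : ℤ)) ^ j * s := by
    intro h
    push Not at h
    obtain ⟨G, _, _, hG, B, hB, d, hd⟩ := h
    obtain ⟨c, N, s, hc, hs, h1⟩ := Pool.Agent.U259.UB.seq red hX hG hB.block hB.defect hd
    refine ⟨c, N, s, hc, hs, fun j => ?_⟩
    obtain ⟨G', _, _, h3, h4, h5, B', h6, h7, h8, h9, h10⟩ := h1 j
    exact ⟨G', inferInstance, inferInstance, h3, h4, B', ⟨h5, h6, h7⟩, h8, h9, h10⟩
  refine ⟨⟨fun h c => ⟨0, fun G _ _ hG B hB _ d _ => h G hG B hB d⟩, fun h => ?_⟩, h2⟩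
  by_contra hne
  have hp := (Fact.out : p.Prime)
  obtain ⟨c, N, s, hc, hs, h1⟩ := h2 hne
  obtain ⟨m, hm⟩ := h (p ^ c)
  obtain ⟨j, hj⟩ : ∃ j, m ≤ p ^ j := ⟨m, (Nat.lt_pow_self hp.one_lt).le⟩
  obtain ⟨G, _, _, hG, -, B, hB, h3, -, h4⟩ := h1 j
  have h5 := hm G hG B hB (hj.trans h3) (c + j) (by
    rw [pow_add]
    exact Nat.mul_le_mul_left _ h3)
  rw [h4] at h5
  have hp0 : (p : ℤ) ≠ 0 := by exact_mod_cast hp.ne_zero
  exact mul_ne_zero (pow_ne_zero _ (neg_ne_zero.2 hp0)) hs h5

end Pool.Agent.Results.MP_3f89b9_al.SmallDefectsDecide
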