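import Pool.Agent.N22.DD.Cla

/-!
# Dade's ordinary conjecture for odd primes: one-sided subpolynomial upper bounds suffice

Let `p` be an odd prime and `O` a valuation ring of `ℂ` whose maximal ideal contains `p`; blocks, defect
groups and block induction are defined by central characters modulo the maximal ideal of `O`
(`Pool.Agent.H254R3.IN`). For a block `B` of a finite group `G` let `S_d(B)` be Dade's alternating sum
of the numbers `k^d(B_σ)` over the classes of chains of nontrivial `p`-subgroups.

Proof (`Pool.Agent.N22.DD.dade_of_sub`; the theorem had not been handed in). Let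
`F_B(x) = ∑_d S_d(B) x^d`. Since `S_d(B ⊗ B) = ∑_{i+j=d} S_i(B) S_j(B)` and the value at `d = 2 e` of the
product of `F_B(x) F_B(x)` contains `S_e(B)²`, upper bounds for the `S_d` on a class closed under squares
bound the `ℓ²`-norm: `|F_B(t)| ≤ 1` for all `|t| = 1`. The recursion `2 F_{B ≀ C₂}(x) = F_B(x)² + 3 F_B(x²)`,
applied to `B` and `B ⊗ B`, then gives `|F_B(t²)| ≤ 19/20` for all `|t| = 1`, so `∑_d S_d(B)² < 1` by
Parseval's formula.
-/

set_option autoImplicit false

noncomputable section

namespace Pool.Agent.Results.MP_3f89b9_al.UpperBoundDecides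

open Pool.Agent.Y63.KR (alternatingSum chainSetoid chainStabilizer)
open Pool.Agent.Q90.WR (Wr IndS AdmB)
open Pool.Agent.N22.DD (Cl SqC WrC)

/-- `k^d(B_σ)` for `G_σ = H`: the number of the irreducible characters `θ` of the subgroup `H` of
`p`-defect `d` with `bl(θ)^G = B`. -/
def kB (p : ℕ) (O : ValuationSubring ℂ) (d : ℕ) {G : Type} [Group G] (B : Set (G → ℂ))
    (H : Subgroup G) : ℕ :=
  Nat.card {θ : H → ℂ // θ ∈ IndS O B (Subtype.val : H → G) ∧
    ∃ n : ℕ, θ 1 = (n : ℂ) ∧ n.factorization p + d = (Nat.card H).factorization p}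

/-- Dade's alternating sum `∑_σ (-1)^|σ| k^d(B_σ)` over representatives `σ` of the `G`-classes of
chains of nontrivial `p`-subgroups of `G`, the empty chain included. -/
def S (p : ℕ) (O : ValuationSubring ℂ) (d : ℕ) {G : Type} [Group G] (B : Set (G → ℂ)) : ℤ :=
  alternatingSum p G (fun H => (kB p O d B H : ℤ))

/-- **Dade's ordinary conjecture for odd primes: subpolynomial upper bounds suffice.** Let `p` be an
odd prime and `C` a class of pairs `(G, B)` of a finite group `G` with `O_p(G) = 1` and a block `B` of `G`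
with nontrivial defect groups, closed under `(G, B) ↦ (G × G, B ⊗ B)` and `(G, B) ↦ (G ≀ C₂, B ≀ C₂)`. The
following are equivalent: (a) `S_d(B) = 0` for all `d` and all pairs in `C`; (b) `∑_d S_d(B)² ≤ 1` for all
pairs in `C`; (c) `S_d(B) ≤ 1` for all `d` and all pairs in `C`; (d) for every `ε > 0` there is `c` with
`S_d(B) ≤ c |G| ^ ε` for all `d` and all pairs in `C`.
The class of all pairs `(G, B)` is closed under both operations. -/
theorem result (p : ℕ) [Fact p.Prime] (hp2 : p ≠ 2) (O : ValuationSubring ℂ)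
    (hpO : (p : ℂ) ∈ O.nonunits) :
    (∀ C : Cl, (∀ (G : Type) [i : Group G] (B : Set (G → ℂ)), C G i B → AdmB p O G B) → SqC C →
      WrC C → List.TFAE
      [∀ (G : Type) [i : Group G] (B : Set (G → ℂ)), C G i B → ∀ d, S p O d B = 0,
       ∀ (G : Type) [i : Group G] (B : Set (G → ℂ)), C G i B →
        ∀ N : ℕ, ∑ d ∈ Finset.range N, S p O d B ^ 2 ≤ 1,
       ∀ (G : Type) [i : Group G] (B : Set (G → ℂ)), C G i B → ∀ d, S p O d B ≤ 1,
       ∀ ε : ℝ, 0 < ε → ∃ c : ℝ, ∀ (G : Type) [i : Group G] (B : Set (G → ℂ)), C G i B →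
        ∀ d, (S p O d B : ℝ) ≤ c * (Nat.card G : ℝ) ^ ε]) ∧
    SqC (fun G _ B => AdmB p O G B) ∧ WrC (fun G _ B => AdmB p O G B) := by
  refine ⟨fun C hA hS hW => ?_, fun G _ B hB => ?_, fun G _ B hB => hB.wr hp2 hpO⟩
  · tfae_have 1 → 2 := by
      intro h G _ B hB N
      have h1 : ∀ d ∈ Finset.range N, S p O d B ^ 2 = 0 := fun d _ => by
        rw [h G B hB d]; norm_num
      rw [Finset.sum_congr rfl h1]
      simp
    tfae_have 2 → 3 := by
      intro h G _ B hB d
      have h1 := h G B hB (d + 1)
      have h2 := Finset.single_le_sum (f := fun d => S p O d B ^ 2)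
        (fun e _ => sq_nonneg (S p O e B)) (Finset.mem_range.mpr (Nat.lt_succ_self d))
      have h3 : S p O d B ^ 2 ≤ 1 := h2.trans h1
      nlinarith [sq_nonneg (S p O d B - 1)]
    tfae_have 3 → 4 := by
      intro h ε hε
      refine ⟨1, fun G _ B hB d => ?_⟩
      have := (hA G B hB).fin
      have h1 : (S p O d B : ℝ) ≤ 1 := by exact_mod_cast h G B hB d
      have h2 : (1 : ℝ) ≤ (Nat.card G : ℝ) ^ ε := by
        apply Real.one_le_rpow _ hε.le
        exact_mod_cast Nat.card_pos (α := G)
      linarith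
    tfae_have 4 → 1 := by
      intro h G _ B hB d
      exact Pool.Agent.N22.DD.dade_of_sub hp2 hpO hA hS hW h G B hB d
    tfae_finish
  · have := hB.fin
    have := Fintype.ofFinite G
    exact Pool.Agent.N22.DD.AdmB.prod hB hB

end Pool.Agent.Results.MP_3f89b9_al.UpperBoundDecides
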